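import Pool.Agent.N209.CD.Defs
import Pool.Agent.N209.MT.Dev
import Pool.Agent.N209.MT.Word

/-!
# Motives over a field extension and families of motives over models: definitions
-/

set_option autoImplicit false

open CategoryTheory Limits MonoidalCategory Pretriangulated Triangulated

namespace Pool.Agent.N209.BD

open Pool.Agent.Y116.MT Pool.Agent.N209.MT

universe w v u v' u' v₁ u₁

section

variable {C : Type u} [Category.{v} C] [Preadditive C] [HasZeroObject C] [HasShift C ℤ]
  [∀ n : ℤ, (shiftFunctor C n).Additive] [Pretriangulated C]

/-- The objects of weights `≥ 0` for a class `W` of objects (the Chow motives): the smallest class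
of objects which is stable under extensions and contains the objects `M⟦n⟧`, `M` in `W`, `n ≥ 0`
(that is, the objects `X` such that `X⟦m⟧` is in `W` for some `m ≤ 0`). -/
def WeightNonneg (W : ObjectProperty C) : ObjectProperty C := ec (degs W (· ≤ 0))

end

section

variable {C : Type u} [Category.{v} C] [Preadditive C] [HasZeroObject C] [HasShift C ℤ]
  [∀ n : ℤ, (shiftFunctor C n).Additive] [Pretriangulated C] [MonoidalCategory C]
  [SymmetricCategory C] [TensorTriangulated C]
  {C' : Type u'} [Category.{v'} C'] [Preadditive C'] [HasZeroObject C'] [HasShift C' ℤ]
  [∀ n : ℤ, (shiftFunctor C' n).Additive] [Pretriangulated C'] [MonoidalCategory C']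
  [SymmetricCategory C'] [TensorTriangulated C']
  {D : Type u₁} [Category.{v₁} D] [Preadditive D] [Linear ℚ D] [MonoidalCategory D]

/-- Let `C` and `C'` be the categories of motives over a field `k` and over an extension field `K`,
let `U` be a smooth connected `k`-variety with a morphism from `Spec K` onto its generic point, let
`D` be the category of motives over `U`, with the functors `ρ : D ⥤ C'` (restriction to `Spec K`),
`φ : C ⥤ D` (inverse image) and `π : D ⥤ C` (direct image), where `φ ⊣ π`, and let `τ` be the
morphism `π φ M ⟶ M` given by restriction to a closed point of `U`, followed by the trace. Let `W` be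
the class of Chow motives over `k`, and `P` the class of Chow motives over `U` (direct summands of
twists of the motives of smooth projective `U`-schemes). The following facts are used: the
endomorphisms of the unit of `D` are the rational numbers (`U` is connected), and the composition
of `𝟙 ⟶ π φ 𝟙` and `τ` is not zero (it is the degree of the closed point); the direct image of a
Chow motive over `U` is of weights `≥ 0` (Bondarko); and if the realisation of a morphism
`u : X ⟶ 𝟙`, with `X` in `P`, is not zero at the generic point, then the map induced by `u` from the
cohomology of `U` with values in `X` to the cohomology of `U`, followed by `τ`, is not zero. This is a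
consequence of the theorems of Deligne: the realisation of `X` is the sum of its cohomology sheaves,
which are semisimple local systems, so that `u` is a projection onto a direct summand. -/
structure IsFamily {E : Type w} [Field E] (R : Realisation C E) (R' : Realisation C' E)
    (W : ObjectProperty C) (P : ObjectProperty D) (ρ : D ⥤ C') (φ : C ⥤ D) [φ.Monoidal]
    (π : D ⥤ C) (adj : φ ⊣ π) (τ : φ ⋙ π ⟶ 𝟭 C) : Prop where
  /-- the endomorphisms of the unit are the rational numbers -/
  scalar (c : 𝟙_ D ⟶ 𝟙_ D) : ∃ q : ℚ, c = q • 𝟙 _
  /-- the trace of the unit is not zero -/
  trace_unit : adj.unit.app (𝟙_ C) ≫ τ.app (𝟙_ C) ≠ 0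
  /-- weights of the direct image -/
  weights (X : D) : P X → WeightNonneg W (π.obj X)
  /-- semisimplicity of the local systems and degeneration of the spectral sequence of Leray -/
  semisimple (X : D) : P X → ∀ u : X ⟶ 𝟙_ D, R'.H.map (ρ.map u) ≠ 0 →
    R.H.map (π.map (u ≫ Functor.LaxMonoidal.ε φ) ≫ τ.app (𝟙_ C)) ≠ 0

end

end Pool.Agent.N209.BD
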