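import Pool.Agent.N209.BD.Lift

/-!
# Homological and numerical equivalence: the dual form
-/

set_option autoImplicit false
set_option linter.unusedSectionVars false
set_option linter.unusedSimpArgs false
set_option backward.isDefEq.respectTransparency false
set_option backward.defeqAttrib.useBackward true

open CategoryTheory Limits MonoidalCategory Pretriangulated Triangulated ObjectProperty

namespace Pool.Agent.N209.BD

open Pool.Agent.Y116.MT Pool.Agent.N209.MT Pool.Agent.N209.CD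

universe v u w

section

variable {C : Type u} [Category.{v} C] [Preadditive C] [HasZeroObject C] [HasShift C ℤ]
  [∀ n : ℤ, (shiftFunctor C n).Additive] [Pretriangulated C] [MonoidalCategory C]
  [SymmetricCategory C] [TensorTriangulated C] [MonoidalPreadditive C] [RightRigidCategory C]
  {E : Type w} [Field E] {R : Realisation C E} {W : ObjectProperty C}

/-- Homological and numerical equivalence coincide, in terms of morphisms to the unit. -/
def HomNumD (R : Realisation C E) (W : ObjectProperty C) : Prop :=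
  ∀ M : C, W M → ∀ v : M ⟶ 𝟙_ C, R.H.map v ≠ 0 → ∃ r : 𝟙_ C ⟶ M, r ≫ v ≠ 0

lemma killed_of_counit {X : C} {u : X ⟶ 𝟙_ C} (h : R.H.map u = 0) : Killed R u := by
  intro i
  by_cases hi : i = 0
  · subst hi
    rw [← cancel_epi (R.H.map ((shiftFunctorZero C ℤ).inv.app _)), ← Functor.map_comp]
    have h2 := (shiftFunctorZero C ℤ).inv.naturality u
    rw [← h2, Functor.map_comp]
    simp only [Functor.id_map]
    rw [h, comp_zero, zero_comp]
  · exact (deg_unit (R := R) i hi).eq_of_tgt _ _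

theorem homNumD_of_homNum (hd : ∀ M, W M → W (Mᘁ)) (h : HomNum R W) : HomNumD R W := by
  intro M hM v hv
  let s : 𝟙_ C ⟶ (Mᘁ : C) := η_ M Mᘁ ≫ v ▷ (Mᘁ : C) ≫ (λ_ (Mᘁ : C)).hom
  have hs : R.H.map s ≠ 0 := by
    intro h1
    apply hv
    have h2 : R.H.map (nm v) = 0 := by
      have h3 : nm v = s ≫ (λ_ (Mᘁ : C)).inv := by
        simp [s, nm]
      rw [h3, Functor.map_comp, h1, zero_comp]
    have h3 := killed_of_nm h2 0
    have h4 := (shiftFunctorZero C ℤ).hom.naturality v
    rw [← cancel_epi (R.H.map ((shiftFunctorZero C ℤ).hom.app _)), comp_zero,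
      ← Functor.map_comp]
    simp only [Functor.id_map] at h4
    rw [← h4, Functor.map_comp, h3, zero_comp]
  obtain ⟨r, hr⟩ := h _ (hd M hM) s hs
  refine ⟨η_ M Mᘁ ≫ M ◁ r ≫ (ρ_ M).hom, ?_⟩
  intro h1
  apply hr
  rw [← h1]
  simp only [s, Category.assoc]
  congr 1
  rw [← rightUnitor_naturality, whisker_exchange_assoc, ← leftUnitor_naturality,
    unitors_equal]

theorem homNum_of_homNumD (hd : ∀ M, W M → W (Mᘁ)) (h : HomNumD R W) : HomNum R W := by
  intro M hM s hs
  let u : (Mᘁ : C) ⟶ 𝟙_ C := (ρ_ (Mᘁ : C)).inv ≫ (Mᘁ : C) ◁ s ≫ ε_ M Mᘁ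
  have hrec : s = η_ M Mᘁ ≫ M ◁ u ≫ (ρ_ M).hom := by
    have h1 := ExactPairing.evaluation_coevaluation M (Mᘁ : C)
    have h2 : s = (λ_ (𝟙_ C)).inv ≫ 𝟙_ C ◁ s ≫ (η_ M Mᘁ ▷ M ≫ (α_ M Mᘁ M).hom ≫
        M ◁ ε_ M Mᘁ) ≫ (ρ_ M).hom := by
      rw [h1]
      simp
    rw [h2]
    simp only [u, MonoidalCategory.whiskerLeft_comp, Category.assoc]
    rw [whisker_exchange_assoc, unitors_inv_equal, ← rightUnitor_inv_naturality_assoc]
    simp
  have hu : R.H.map u ≠ 0 := by
    intro h1
    apply hs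
    have h2 := (((killed_of_counit h1).whiskerLeft M).comp_left (η_ M Mᘁ)).comp_right
      (ρ_ M).hom
    rw [Category.assoc, ← hrec] at h2
    have h3 := h2 0
    have h4 := (shiftFunctorZero C ℤ).hom.naturality s
    rw [← cancel_epi (R.H.map ((shiftFunctorZero C ℤ).hom.app _)), comp_zero,
      ← Functor.map_comp]
    simp only [Functor.id_map] at h4
    rw [← h4, Functor.map_comp, h3, zero_comp]
  obtain ⟨r, hr⟩ := h _ (hd M hM) u hu
  refine ⟨(λ_ M).inv ≫ r ▷ M ≫ ε_ M Mᘁ, ?_⟩
  intro h1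
  apply hr
  have h2 : r ≫ u = s ≫ (λ_ M).inv ≫ r ▷ M ≫ ε_ M Mᘁ := by
    simp only [u]
    rw [rightUnitor_inv_naturality_assoc, leftUnitor_inv_naturality_assoc,
      ← whisker_exchange_assoc, unitors_inv_equal]
  rw [h2, h1]

end

end Pool.Agent.N209.BD
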