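import Pool.Agent.N209.BD.Defs
import Pool.Agent.N209.CD.Frob

/-!
# Objects of weights `≥ 0`, and numerical equivalence in the dual form
-/

set_option autoImplicit false
set_option linter.unusedSectionVars false
set_option linter.unusedSimpArgs false
set_option backward.isDefEq.respectTransparency false
set_option backward.defeqAttrib.useBackward true

open CategoryTheory Limits MonoidalCategory Pretriangulated Triangulated ObjectProperty

namespace Pool.Agent.N209.BD

open Pool.Agent.Y116.MT Pool.Agent.N209.MT Pool.Agent.N209.CD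

universe v u w

section Neg

variable {C : Type u} [Category.{v} C] [Preadditive C] [HasZeroObject C] [HasShift C ℤ]
  [∀ n : ℤ, (shiftFunctor C n).Additive] [Pretriangulated C] [IsTriangulated C]
  {W : ObjectProperty C} (hW : Neg W)

include hW

/-- Objects in degrees `≤ m` have a filtration with the part in degree `m` as a subobject. -/
lemma sort_top (m : ℤ) : ec (degs W (· ≤ m)) ≤
    extensionProduct (ec (degs W (· = m))) (ec (degs W (· ≤ m - 1))) := by
  have h0 : (ec (degs W (· ≤ m - 1))).ContainsZero := by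
    obtain ⟨Z, hZ, h⟩ := (hW.degs_zero (S := (· ≤ m - 1)) (n := m - 1) le_rfl).exists_zero
    exact ⟨⟨Z, hZ, le_ec _ _ h⟩⟩
  have h1 : (ec (degs W (· = m))).ContainsZero := by
    obtain ⟨Z, hZ, h⟩ := (hW.degs_zero (S := (· = m)) (n := m) rfl).exists_zero
    exact ⟨⟨Z, hZ, le_ec _ _ h⟩⟩
  refine ec_le ?_ ?_
  · rintro X ⟨n, hn, h⟩
    by_cases hn' : n = m
    · exact le_extensionProduct_left _ _ (le_ec _ _ ⟨n, hn', h⟩)
    · exact le_extensionProduct_right _ _ (le_ec _ _ ⟨n, show n ≤ m - 1 by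
        have : n ≤ m := hn
        omega, h⟩)
  · intro X Y Z f g h hT hX hZ
    exact prod_ext (hW.swap (S := (· ≤ m - 1)) (S' := (· = m)) (by
      intro n n' (h : n ≤ m - 1) (h' : n' = m)
      omega)) _ ⟨_, _, _, _, _, hT, hX, hZ⟩

end Neg

section Weight

variable {C : Type u} [Category.{v} C] [Preadditive C] [HasZeroObject C] [HasShift C ℤ]
  [∀ n : ℤ, (shiftFunctor C n).Additive] [Pretriangulated C] [MonoidalCategory C]
  [SymmetricCategory C] [TensorTriangulated C]
  {E : Type w} [Field E] {R : Realisation C E} {W : ObjectProperty C} (w : Weights R W)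

/-- The cohomology of `Y` has high weights: the weights of the `i`-th cohomology are at least
`i - c`. -/
def High (c : ℤ) (Y : C) : Prop := ∀ i : ℤ, ∃ Q : Polynomial E, w.ev (Y⟦i⟧) Q = 0 ∧
  ∀ (j : ℤ) (P : Polynomial E), j < i - c → w.pure j P → IsCoprime Q P

lemma high_of_mem (hW : W.IsClosedUnderIsomorphisms) {c n : ℤ} (hn : n ≤ c) {Y : C}
    (hY : W (Y⟦n⟧)) : High w c Y := by
  intro i
  obtain ⟨P, hP, hP'⟩ := w.exists_pure _ hY (i - n)
  refine ⟨P, w.ev_iso ((shiftFunctorAdd' C n (i - n) i (by omega)).app Y).symm hP', ?_⟩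
  intro j Q hj hQ
  exact w.coprime (by omega) hP hQ

lemma high_ext {c : ℤ} {X Y Z : C} {f : X ⟶ Y} {g : Y ⟶ Z} {h : Z ⟶ X⟦(1 : ℤ)⟧}
    (hT : Triangle.mk f g h ∈ distTriang C) (hX : High w c X) (hZ : High w c Z) :
    High w c Y := by
  intro i
  obtain ⟨P, hP, hP'⟩ := hX i
  obtain ⟨Q, hQ, hQ'⟩ := hZ i
  refine ⟨P * Q, LinearMap.ext fun y => ?_, fun j S hj hS => (hP' j S hj hS).mul_left
    (hQ' j S hj hS)⟩
  rw [w.ev_mul]
  obtain ⟨x, hx⟩ := exact_elt hT i (w.ev _ Q y) (by rw [← w.ev_natural, hQ]; rfl)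
  rw [← hx, w.ev_natural, hP]
  simp

/-- Exactness of the cohomology sequence in degree zero, for elements. -/
lemma exact0 {X Y Z : C} {f : X ⟶ Y} {g : Y ⟶ Z} {h : Z ⟶ X⟦(1 : ℤ)⟧}
    (hT : Triangle.mk f g h ∈ distTriang C) (y : R.H.obj Y)
    (hy : (R.H.map g).hom y = 0) : ∃ x, (R.H.map f).hom x = y := by
  have h1 := R.H.map_distinguished_exact _ hT
  rw [ShortComplex.moduleCat_exact_iff] at h1
  exact h1 y hy

variable [IsTriangulated C]

lemma high_ec (hW : W.IsClosedUnderIsomorphisms) {c : ℤ} {Y : C}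
    (hY : ec (degs W (· ≤ c)) Y) : High w c Y := by
  have h1 : ec (degs W (· ≤ c)) ≤ (fun Y => High w c Y) := by
    refine ec_le ?_ ?_
    · rintro Y ⟨n, hn, hY⟩
      exact high_of_mem w hW hn hY
    · intro X Y Z f g h hT hX hZ
      exact high_ext w hT hX hZ
  exact h1 Y hY

/-- The polynomials which annihilate the cohomology of degree zero. -/
lemma ev_zero_of {Y : C} {i : ℤ} (hi : i = 0) {Q : Polynomial E} (h : w.ev (Y⟦i⟧) Q = 0) :
    w.ev Y Q = 0 := by
  subst hi
  exact w.ev_iso ((shiftFunctorZero C ℤ).app Y) h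

lemma pure_zero {M : C} (hM : W M) : ∃ P, w.pure 0 P ∧ w.ev M P = 0 := by
  obtain ⟨P, hP, hP'⟩ := w.exists_pure M hM 0
  exact ⟨P, hP, ev_zero_of w rfl hP'⟩

/-- If `X` is an extension of `Z` by `A`, where the cohomology of `Z` has weights `> 0`, then the
realisation of a morphism from `X` to a pure object which vanishes on `A` is zero. -/
lemma map_zero_of_high {A X Z N : C} {f : A ⟶ X} {g : X ⟶ Z} {h : Z ⟶ A⟦(1 : ℤ)⟧}
    (hT : Triangle.mk f g h ∈ distTriang C) (hZ : High w (-1) Z) (hN : W N) (v : X ⟶ N)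
    (hv : R.H.map (f ≫ v) = 0) : R.H.map v = 0 := by
  obtain ⟨Q, hQ, hQ'⟩ := hZ 0
  obtain ⟨P, hP, hP'⟩ := pure_zero w hN
  obtain ⟨a, b, hab⟩ := hQ' 0 P (by norm_num) hP
  have hQ0 : w.ev Z Q = 0 := ev_zero_of w rfl hQ
  ext y
  have h1 : w.ev N Q ((R.H.map v).hom y) = 0 := by
    obtain ⟨x, hx⟩ := exact0 hT (w.ev X Q y) (by rw [← w.ev_natural, hQ0]; rfl)
    rw [w.ev_natural, ← hx]
    have h2 : (R.H.map v).hom ((R.H.map f).hom x) = (R.H.map (f ≫ v)).hom x := by
      rw [Functor.map_comp]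
      rfl
    rw [h2, hv]
    rfl
  have h2 : w.ev N P ((R.H.map v).hom y) = 0 := by
    rw [hP']
    rfl
  have h3 : w.ev N (a * Q + b * P) ((R.H.map v).hom y) = 0 := by
    have h4 : w.ev N (a * Q + b * P) = w.ev N (a * Q) + w.ev N (b * P) := by
      simp [Weights.ev]
    rw [h4, LinearMap.add_apply, w.ev_mul, w.ev_mul, h1, h2, map_zero, map_zero, add_zero]
  rw [hab] at h3
  have h5 : w.ev N 1 ((R.H.map v).hom y) = (R.H.map v).hom y := by
    simp [Weights.ev]
  rw [h5] at h3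
  rw [h3]
  rfl

variable [MonoidalPreadditive C] [RightRigidCategory C]

/-- The truncation of an object of weights `≥ 0`: a morphism `f : M ⟶ X` with `M` pure such that
every morphism from a pure object to `X` factors through `f`, and which is surjective on the
cohomology of weight zero. -/
lemma exists_cover (hW : Neg W) {X : C} (hX : WeightNonneg W X) :
    ∃ (M Z : C) (f : M ⟶ X) (g : X ⟶ Z) (h : Z ⟶ M⟦(1 : ℤ)⟧), W M ∧ ec (degs W (· ≤ -1)) Z ∧
      Triangle.mk f g h ∈ distTriang C ∧ ∀ A : C, W A → ∀ s : A ⟶ X, ∃ a, s = a ≫ f := by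
  have := hW.iso
  obtain ⟨M, Z, f, g, h, hT, hM, hZ⟩ := sort_top hW 0 X hX
  refine ⟨M, Z, f, g, h, ?_, hZ, hT, ?_⟩
  · exact W.prop_of_iso ((shiftFunctorZero C ℤ).app M) (hW.ec_single 0 hM)
  · intro A hA s
    have hA' : ec (degs W (· = 0)) A :=
      le_ec _ _ ⟨0, rfl, W.prop_of_iso ((shiftFunctorZero C ℤ).app A).symm hA⟩
    have h1 : s ≫ g = 0 := hW.ec_hom_zero (S := (· = 0)) (S' := (· ≤ 0 - 1))
      (by intro a b (ha : a = 0) (hb : b ≤ 0 - 1); omega) hA' hZ _
    obtain ⟨a, ha⟩ := ce2 hT s h1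
    exact ⟨a, ha⟩

end Weight

end Pool.Agent.N209.BD
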