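import Pool.Agent.N209.BD.Dual

/-!
# Homological and numerical equivalence over a field and over its extensions
-/

set_option autoImplicit false
set_option linter.unusedSectionVars false
set_option linter.unusedSimpArgs false
set_option backward.isDefEq.respectTransparency false
set_option backward.defeqAttrib.useBackward true

open CategoryTheory Limits MonoidalCategory Pretriangulated Triangulated ObjectProperty

namespace Pool.Agent.N209.BD

open Pool.Agent.Y116.MT Pool.Agent.N209.MT Pool.Agent.N209.CD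

universe w v u v' u' v₁ u₁

section

variable {C : Type u} [Category.{v} C] [Preadditive C] [HasZeroObject C] [HasShift C ℤ]
  [∀ n : ℤ, (shiftFunctor C n).Additive] [Pretriangulated C] [IsTriangulated C]
  [MonoidalCategory C] [SymmetricCategory C] [TensorTriangulated C] [MonoidalPreadditive C]
  [RightRigidCategory C] [Linear ℚ C]
  {C' : Type u'} [Category.{v'} C'] [Preadditive C'] [HasZeroObject C'] [HasShift C' ℤ]
  [∀ n : ℤ, (shiftFunctor C' n).Additive] [Pretriangulated C'] [MonoidalCategory C']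
  [SymmetricCategory C'] [TensorTriangulated C'] [MonoidalPreadditive C'] [RightRigidCategory C']
  {E : Type w} [Field E] {R : Realisation C E} {R' : Realisation C' E}
  {W : ObjectProperty C} {W' : ObjectProperty C'}
  {D : Type u₁} [Category.{v₁} D] [Preadditive D] [Linear ℚ D] [MonoidalCategory D]
  {P : ObjectProperty D} {ρ : D ⥤ C'} [ρ.Additive] [ρ.Monoidal] {φ : C ⥤ D} [φ.Monoidal]
  {π : D ⥤ C} [π.Additive] {adj : φ ⊣ π} {τ : φ ⋙ π ⟶ 𝟭 C}

lemma unit_ne_zero (R' : Realisation C' E) : (𝟙 (𝟙_ C') : 𝟙_ C' ⟶ 𝟙_ C') ≠ 0 := by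
  intro h
  have h1 : (𝟙 (R'.H.obj (𝟙_ C')) : R'.H.obj (𝟙_ C') ⟶ _) = 0 := by
    rw [← CategoryTheory.Functor.map_id, h, Functor.map_zero]
  have h2 : IsZero (𝟙_ (ModuleCat.{w} E)) :=
    ((IsZero.iff_id_eq_zero _).2 h1).of_iso (asIso (Functor.LaxMonoidal.ε R'.H))
  have h3 := ModuleCat.subsingleton_of_isZero h2
  exact one_ne_zero (α := E) (Subsingleton.elim (α := E) 1 0)

lemma isIso_of_scalar {A : Type*} [Category A] [Preadditive A] [Linear ℚ A] {X : A} {c : X ⟶ X}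
    {q : ℚ} (h : c = q • 𝟙 X) (hq : q ≠ 0) : IsIso c := by
  subst h
  refine ⟨q⁻¹ • 𝟙 X, ?_, ?_⟩ <;>
  simp [smul_smul, hq]

/-- The class which is found over `K`. -/
lemma exists_ascend (hF : IsFamily R R' W P ρ φ π adj τ) (hN : Neg W) (w : Weights R W)
    (hu : W (𝟙_ C)) (hD : HomNumD R W) {X : D} (hX : P X) (u₀ : X ⟶ 𝟙_ D)
    (h : R'.H.map (ρ.map u₀) ≠ 0) : ∃ r₀ : 𝟙_ D ⟶ X, ρ.map (r₀ ≫ u₀) ≠ 0 := by
  obtain ⟨M, Z, f, g, k, hM, hZ, hT, -⟩ := exists_cover hN (hF.weights X hX)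
  let v : π.obj X ⟶ 𝟙_ C := π.map (u₀ ≫ Functor.LaxMonoidal.ε φ) ≫ τ.app (𝟙_ C)
  have hv : R.H.map v ≠ 0 := hF.semisimple X hX u₀ h
  have hfv : R.H.map (f ≫ v) ≠ 0 := fun h1 =>
    hv (map_zero_of_high w hT (high_ec w hN.iso hZ) hu v h1)
  obtain ⟨r, hr⟩ := hD M hM (f ≫ v) hfv
  let r₀ : 𝟙_ D ⟶ X := Functor.LaxMonoidal.ε φ ≫ (adj.homEquiv (𝟙_ C) X).symm (r ≫ f)
  refine ⟨r₀, ?_⟩
  obtain ⟨q, hq⟩ := hF.scalar (r₀ ≫ u₀)
  have hq0 : q ≠ 0 := by
    rintro rfl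
    rw [zero_smul] at hq
    apply hr
    have h1 : (adj.homEquiv (𝟙_ C) X).symm (r ≫ f) ≫ u₀ = 0 := by
      rw [← cancel_epi (Functor.LaxMonoidal.ε φ), comp_zero, ← Category.assoc]
      exact hq
    have h2 : (r ≫ f) ≫ π.map (u₀ ≫ Functor.LaxMonoidal.ε φ) = 0 := by
      rw [← (adj.homEquiv (𝟙_ C) X).apply_symm_apply (r ≫ f), ← adj.homEquiv_naturality_right,
        ← Category.assoc, h1, zero_comp, Adjunction.homEquiv_unit, Functor.map_zero, comp_zero]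
    simp only [v]
    rw [← Category.assoc, ← Category.assoc, h2, zero_comp]
  have hiso : IsIso (r₀ ≫ u₀) := isIso_of_scalar hq hq0
  intro h1
  have h2 : IsIso (ρ.map (r₀ ≫ u₀)) := inferInstance
  apply unit_ne_zero R'
  have h3 : (𝟙 (ρ.obj (𝟙_ D)) : ρ.obj (𝟙_ D) ⟶ _) = 0 := by
    rw [← cancel_mono (ρ.map (r₀ ≫ u₀)), zero_comp, h1, comp_zero]
  rw [← cancel_epi (Functor.OplaxMonoidal.η ρ), comp_zero, Category.comp_id,
    ← Category.id_comp (Functor.OplaxMonoidal.η ρ), h3, zero_comp]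

/-- Standard conjecture D over `k` implies D over `K`. -/
theorem ascend (hN : Neg W) (w : Weights R W) (hu : W (𝟙_ C)) (hD : HomNumD R W)
    {I : Type*} {D : I → Type u₁} [∀ i, Category.{v₁} (D i)] [∀ i, Preadditive (D i)]
    [∀ i, Linear ℚ (D i)] [∀ i, MonoidalCategory (D i)]
    {P : ∀ i, ObjectProperty (D i)}
    {ρ : ∀ i, D i ⥤ C'} [∀ i, (ρ i).Additive] [∀ i, (ρ i).Monoidal]
    {φ : ∀ i, C ⥤ D i} [∀ i, (φ i).Monoidal] {π : ∀ i, D i ⥤ C} [∀ i, (π i).Additive]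
    {adj : ∀ i, φ i ⊣ π i} {τ : ∀ i, φ i ⋙ π i ⟶ 𝟭 C}
    (hF : ∀ i, IsFamily R R' W (P i) (ρ i) (φ i) (π i) (adj i) (τ i))
    (hcov : ∀ Y : C', W' Y → ∀ u : Y ⟶ 𝟙_ C', ∃ (i : I) (X : D i) (u₀ : X ⟶ 𝟙_ (D i))
      (j : (ρ i).obj X ≅ Y), P i X ∧
        j.hom ≫ u = (ρ i).map u₀ ≫ Functor.OplaxMonoidal.η (ρ i)) : HomNumD R' W' := by
  intro Y hY u hu'
  obtain ⟨i, X, u₀, j, hX, hj⟩ := hcov Y hY u
  have h1 : R'.H.map ((ρ i).map u₀) ≠ 0 := by
    intro h1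
    apply hu'
    rw [← cancel_epi (R'.H.map j.hom), ← Functor.map_comp, hj, Functor.map_comp, h1, zero_comp,
      comp_zero]
  obtain ⟨r₀, hr₀⟩ := exists_ascend (hF i) hN w hu hD hX u₀ h1
  refine ⟨Functor.LaxMonoidal.ε (ρ i) ≫ (ρ i).map r₀ ≫ j.hom, ?_⟩
  intro h2
  apply hr₀
  rw [Category.assoc, Category.assoc, hj, ← Functor.map_comp_assoc] at h2
  rwa [← cancel_epi (Functor.LaxMonoidal.ε (ρ i)), comp_zero,
    ← cancel_mono (Functor.OplaxMonoidal.η (ρ i)), zero_comp, Category.assoc]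

/-- Standard conjecture D over `K` implies D over `k`. -/
theorem descend (hD : HomNumD R' W') (b : C ⥤ C') [b.Monoidal] (hb : R.H ≅ b ⋙ R'.H)
    (hbW : ∀ M, W M → W' (b.obj M))
    {I : Type*} {D : I → Type u₁} [∀ i, Category.{v₁} (D i)] [∀ i, Preadditive (D i)]
    [∀ i, Linear ℚ (D i)] [∀ i, MonoidalCategory (D i)]
    {P : ∀ i, ObjectProperty (D i)}
    {ρ : ∀ i, D i ⥤ C'} [∀ i, (ρ i).Additive] [∀ i, (ρ i).Monoidal]
    {φ : ∀ i, C ⥤ D i} [∀ i, (φ i).Monoidal] {π : ∀ i, D i ⥤ C} [∀ i, (π i).Additive]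
    {adj : ∀ i, φ i ⊣ π i} {τ : ∀ i, φ i ⋙ π i ⟶ 𝟭 C}
    (hF : ∀ i, IsFamily R R' W (P i) (ρ i) (φ i) (π i) (adj i) (τ i))
    (κ : ∀ i, φ i ⋙ ρ i ≅ b)
    (hcov : ∀ M : C, W M → ∀ s : 𝟙_ C' ⟶ b.obj M, ∃ (i : I) (s₀ : 𝟙_ (D i) ⟶ (φ i).obj M),
      s = Functor.LaxMonoidal.ε (ρ i) ≫ (ρ i).map s₀ ≫ (κ i).hom.app M) : HomNumD R W := by
  intro M hM v hv
  have hv' : R'.H.map (b.map v ≫ Functor.OplaxMonoidal.η b) ≠ 0 := by
    intro h
    apply hv
    rw [Functor.map_comp] at h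
    have h1 : R'.H.map (b.map v) = 0 := by
      rw [← cancel_mono (R'.H.map (Functor.OplaxMonoidal.η b)), h, zero_comp]
    have h2 := hb.hom.naturality v
    rw [← cancel_mono (hb.hom.app _), zero_comp, h2]
    simp only [Functor.comp_map]
    rw [h1, comp_zero]
  obtain ⟨r', hr'⟩ := hD _ (hbW M hM) _ hv'
  obtain ⟨i, s₀, rfl⟩ := hcov M hM r'
  have h1 : s₀ ≫ (φ i).map v ≠ 0 := by
    intro h
    apply hr'
    have h2 := (κ i).hom.naturality v
    simp only [Functor.comp_map] at h2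
    simp only [Category.assoc]
    rw [← reassoc_of% h2, ← Functor.map_comp_assoc, h, Functor.map_zero, zero_comp, comp_zero]
  obtain ⟨q, hq⟩ := (hF i).scalar (s₀ ≫ (φ i).map v ≫ Functor.OplaxMonoidal.η (φ i))
  have hq0 : q ≠ 0 := by
    rintro rfl
    apply h1
    rw [← cancel_mono (Functor.OplaxMonoidal.η (φ i)), zero_comp, Category.assoc, hq, zero_smul]
  let t : (φ i).obj (𝟙_ C) ⟶ (φ i).obj M := Functor.OplaxMonoidal.η (φ i) ≫ s₀
  have ht : t ≫ (φ i).map v = q • 𝟙 _ := by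
    rw [← cancel_mono (Functor.OplaxMonoidal.η (φ i))]
    simp only [t, Category.assoc]
    rw [hq, Linear.comp_smul, Category.comp_id, Linear.smul_comp, Category.id_comp]
  refine ⟨(adj i).homEquiv (𝟙_ C) _ t ≫ (τ i).app M, ?_⟩
  have h3 : ((adj i).homEquiv (𝟙_ C) _ t ≫ (τ i).app M) ≫ v =
      q • ((adj i).unit.app (𝟙_ C) ≫ (τ i).app (𝟙_ C)) := by
    have h4 := (τ i).naturality v
    simp only [Functor.comp_map, Functor.id_map] at h4
    have h6 : (adj i).unit.app (𝟙_ C) ≫ 𝟙 ((π i).obj ((φ i).obj (𝟙_ C))) =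
        (adj i).unit.app (𝟙_ C) := Category.comp_id _
    rw [Category.assoc, ← h4, ← Category.assoc, ← (adj i).homEquiv_naturality_right, ht,
      Adjunction.homEquiv_unit, Functor.map_smul, CategoryTheory.Functor.map_id,
      Linear.comp_smul, h6, Linear.smul_comp]
  rw [h3]
  intro h5
  apply (hF i).trace_unit
  rw [← one_smul ℚ ((adj i).unit.app (𝟙_ C) ≫ (τ i).app (𝟙_ C)), ← inv_mul_cancel₀ hq0,
    mul_smul, h5, smul_zero]

end

end Pool.Agent.N209.BD
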