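import Pool.Agent.V1178.MT.Defs

/-!
# Tensor powers of morphisms from the unit
-/

set_option autoImplicit false
set_option linter.unusedSectionVars false
set_option linter.unusedSimpArgs false
set_option backward.isDefEq.respectTransparency false
set_option backward.defeqAttrib.useBackward true

open CategoryTheory Limits MonoidalCategory

namespace Pool.Agent.N209.BD

open Pool.Agent.V1178.MT

universe v u v' u'

section

variable {C : Type u} [Category.{v} C] [MonoidalCategory C]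

/-- The tensor powers `s ⊗ ⋯ ⊗ s : 𝟙 ⟶ X ⊗ ⋯ ⊗ X` of a morphism `s : 𝟙 ⟶ X`. -/
def powMor {X : C} (s : 𝟙_ C ⟶ X) : ∀ n : ℕ, 𝟙_ C ⟶ pow X n
  | 0 => 𝟙 _
  | n + 1 => (λ_ (𝟙_ C)).inv ≫ (s ⊗ₘ powMor s n)

/-- The tensor powers of a morphism. -/
def powMap {X Y : C} (g : X ⟶ Y) : ∀ n : ℕ, pow X n ⟶ pow Y n
  | 0 => 𝟙 _
  | n + 1 => g ⊗ₘ powMap g n

lemma powMor_comp {X Y : C} (s : 𝟙_ C ⟶ X) (g : X ⟶ Y) (n : ℕ) :
    powMor (s ≫ g) n = powMor s n ≫ powMap g n := by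
  induction n with
  | zero => exact (Category.comp_id _).symm
  | succ n ih =>
    have h1 : powMor (s ≫ g) (n + 1) = (λ_ (𝟙_ C)).inv ≫ ((s ≫ g) ⊗ₘ powMor (s ≫ g) n) := rfl
    have h2 : powMor s (n + 1) ≫ powMap g (n + 1) =
      ((λ_ (𝟙_ C)).inv ≫ (s ⊗ₘ powMor s n)) ≫ (g ⊗ₘ powMap g n) := rfl
    rw [h1, h2, ih, Category.assoc, tensorHom_comp_tensorHom]

/-- The product of two morphisms from the unit. -/
def star {X Y : C} (s : 𝟙_ C ⟶ X) (t : 𝟙_ C ⟶ Y) : 𝟙_ C ⟶ X ⊗ Y :=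
  (λ_ (𝟙_ C)).inv ≫ (s ⊗ₘ t)

lemma star_comp {X Y X' Y' : C} (s : 𝟙_ C ⟶ X) (t : 𝟙_ C ⟶ Y) (f : X ⟶ X') (g : Y ⟶ Y') :
    star s t ≫ (f ⊗ₘ g) = star (s ≫ f) (t ≫ g) := by
  simp only [star, Category.assoc, tensorHom_comp_tensorHom]

lemma star_assoc {X Y Z : C} (s : 𝟙_ C ⟶ X) (t : 𝟙_ C ⟶ Y) (u : 𝟙_ C ⟶ Z) :
    star (star s t) u ≫ (α_ X Y Z).hom = star s (star t u) := by
  simp only [star, Category.assoc]
  have h1 : ((λ_ (𝟙_ C)).inv ≫ (s ⊗ₘ t)) ⊗ₘ u =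
      ((λ_ (𝟙_ C)).inv ⊗ₘ 𝟙 _) ≫ ((s ⊗ₘ t) ⊗ₘ u) := by
    rw [tensorHom_comp_tensorHom, Category.id_comp]
  have h2 : s ⊗ₘ ((λ_ (𝟙_ C)).inv ≫ (t ⊗ₘ u)) =
      (𝟙 _ ⊗ₘ (λ_ (𝟙_ C)).inv) ≫ (s ⊗ₘ (t ⊗ₘ u)) := by
    rw [tensorHom_comp_tensorHom, Category.id_comp]
  rw [h1, h2, Category.assoc, associator_naturality]
  have h3 : (λ_ (𝟙_ C)).inv ≫ ((λ_ (𝟙_ C)).inv ⊗ₘ 𝟙 (𝟙_ C)) ≫ (α_ (𝟙_ C) (𝟙_ C) (𝟙_ C)).hom =
      (λ_ (𝟙_ C)).inv ≫ (𝟙 (𝟙_ C) ⊗ₘ (λ_ (𝟙_ C)).inv) := by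
    simp only [tensorHom_id, id_tensorHom]
    monoidal
  rw [reassoc_of% h3]

lemma star_unit {X : C} (s : 𝟙_ C ⟶ X) : star s (𝟙 (𝟙_ C)) ≫ (ρ_ X).hom = s := by
  simp [star, unitors_inv_equal]

lemma unit_star {X : C} (s : 𝟙_ C ⟶ X) : star (𝟙 (𝟙_ C)) s ≫ (λ_ X).hom = s := by
  simp [star]

variable [BraidedCategory C]

lemma star_braid {X Y : C} (s : 𝟙_ C ⟶ X) (t : 𝟙_ C ⟶ Y) :
    star s t ≫ (β_ X Y).hom = star t s := by
  simp only [star, Category.assoc]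
  rw [BraidedCategory.braiding_naturality]
  have h1 : (λ_ (𝟙_ C)).inv ≫ (β_ (𝟙_ C) (𝟙_ C)).hom = (λ_ (𝟙_ C)).inv := by
    simp [unitors_inv_equal]
  rw [reassoc_of% h1]

/-- The isomorphism between `X^(⊗ a) ⊗ X^(⊗ b)` and `X^(⊗ (a + b))`. -/
lemma exists_add (X : C) (a b : ℕ) : ∃ e : pow X a ⊗ pow X b ≅ pow X (a + b),
    ∀ s : 𝟙_ C ⟶ X, star (powMor s a) (powMor s b) ≫ e.hom = powMor s (a + b) := by
  induction b with
  | zero => exact ⟨ρ_ _, fun s => star_unit _⟩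
  | succ b ih =>
    obtain ⟨e, he⟩ := ih
    let f : pow X a ⊗ (X ⊗ pow X b) ≅ X ⊗ pow X (a + b) :=
      (α_ _ _ _).symm ≪≫ whiskerRightIso (β_ (pow X a) X) (pow X b) ≪≫ α_ _ _ _ ≪≫
        whiskerLeftIso X e
    refine ⟨f, fun s => ?_⟩
    have h0 : powMor s (b + 1) = star s (powMor s b) := rfl
    have h0' : powMor s (a + (b + 1)) = star s (powMor s (a + b)) := rfl
    rw [h0, h0', ← he s]
    have h1 : star (powMor s a) (star s (powMor s b)) ≫ (α_ _ _ _).inv =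
        star (star (powMor s a) s) (powMor s b) := by
      rw [← star_assoc, Category.assoc, Iso.hom_inv_id, Category.comp_id]
    simp only [f, Iso.trans_hom, Iso.symm_hom, whiskerRightIso_hom, whiskerLeftIso_hom]
    rw [← Category.assoc, h1]
    have h2 : star (star (powMor s a) s) (powMor s b) ≫ (β_ (pow X a) X).hom ▷ pow X b =
        star (star s (powMor s a)) (powMor s b) := by
      have h3 := star_comp (star (powMor s a) s) (powMor s b) (β_ (pow X a) X).hom (𝟙 (pow X b))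
      rw [tensorHom_id, star_braid, Category.comp_id] at h3
      exact h3
    rw [← Category.assoc, h2, ← Category.assoc, star_assoc]
    have h4 := star_comp s (star (powMor s a) (powMor s b)) (𝟙 X) e.hom
    rw [id_tensorHom, Category.comp_id] at h4
    exact h4

lemma exists_mul (X : C) (a b : ℕ) : ∃ e : pow (pow X a) b ≅ pow X (a * b),
    ∀ s : 𝟙_ C ⟶ X, powMor (powMor s a) b ≫ e.hom = powMor s (a * b) := by
  induction b with
  | zero => exact ⟨Iso.refl _, fun s => Category.comp_id _⟩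
  | succ b ih =>
    obtain ⟨e, he⟩ := ih
    obtain ⟨g, hg⟩ := exists_add X (a * b) a
    refine ⟨whiskerLeftIso (pow X a) e ≪≫ β_ _ _ ≪≫ g, fun s => ?_⟩
    have h0 : powMor (powMor s a) (b + 1) = star (powMor s a) (powMor (powMor s a) b) := rfl
    have h1 := star_comp (powMor s a) (powMor (powMor s a) b) (𝟙 _) e.hom
    rw [id_tensorHom, Category.comp_id, he] at h1
    rw [h0]
    simp only [Iso.trans_hom, whiskerLeftIso_hom]
    rw [← Category.assoc, h1, ← Category.assoc, star_braid, hg]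
    rfl

variable {D : Type u'} [Category.{v'} D] [MonoidalCategory D]

open Functor.LaxMonoidal in
omit [BraidedCategory C] in
lemma exists_functor (F : C ⥤ D) [F.Monoidal] (X : C) (n : ℕ) :
    ∃ e : pow (F.obj X) n ≅ F.obj (pow X n),
      ∀ s : 𝟙_ C ⟶ X, powMor (ε F ≫ F.map s) n ≫ e.hom = ε F ≫ F.map (powMor s n) := by
  induction n with
  | zero =>
    refine ⟨Functor.Monoidal.εIso F, fun s => ?_⟩
    have h1 : powMor (ε F ≫ F.map s) 0 = 𝟙 _ := rfl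
    have h2 : powMor s 0 = 𝟙 _ := rfl
    rw [h1, h2]
    have h3 : F.map (𝟙 (𝟙_ C)) = 𝟙 _ := F.map_id _
    have h4 : ε F ≫ 𝟙 (F.obj (𝟙_ C)) = ε F := Category.comp_id _
    have h5 : 𝟙 (𝟙_ D) ≫ ε F = ε F := Category.id_comp _
    have h6 : ε F ≫ F.map (𝟙 (𝟙_ C)) = ε F := by rw [h3, h4]
    exact h5.trans h6.symm
  | succ n ih =>
    obtain ⟨e, he⟩ := ih
    refine ⟨whiskerLeftIso (F.obj X) e ≪≫ Functor.Monoidal.μIso F _ _, fun s => ?_⟩
    have h0 : powMor (ε F ≫ F.map s) (n + 1) =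
      star (ε F ≫ F.map s) (powMor (ε F ≫ F.map s) n) := rfl
    have h1 := star_comp (ε F ≫ F.map s) (powMor (ε F ≫ F.map s) n) (𝟙 _) e.hom
    rw [id_tensorHom, Category.comp_id, he] at h1
    rw [h0]
    simp only [Iso.trans_hom, whiskerLeftIso_hom, Functor.Monoidal.μIso_hom]
    rw [← Category.assoc, h1]
    have h2 : star (ε F ≫ F.map s) (ε F ≫ F.map (powMor s n)) ≫ μ F X (pow X n) =
        ε F ≫ F.map (star s (powMor s n)) := by
      simp only [star, Category.assoc]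
      rw [← tensorHom_comp_tensorHom, Category.assoc, μ_natural, Functor.map_comp]
      have h3 : (λ_ (𝟙_ D)).inv ≫ (ε F ⊗ₘ ε F) ≫ μ F (𝟙_ C) (𝟙_ C) =
          ε F ≫ F.map (λ_ (𝟙_ C)).inv := by
        rw [MonoidalCategory.tensorHom_def', Category.assoc,
          ← leftUnitor_inv_naturality_assoc, left_unitality_inv]
      rw [reassoc_of% h3]
    exact h2

end

end Pool.Agent.N209.BD
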