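import Pool.Agent.N209.BD.Defs
import Pool.Agent.N209.BD.Pow
import Pool.Agent.N209.PF.Defs

/-!
# Smash-nilpotence: definitions
-/

set_option autoImplicit false

open CategoryTheory Limits MonoidalCategory Pretriangulated Triangulated

namespace Pool.Agent.N209.BD

open Pool.Agent.Y116.MT Pool.Agent.N209.PF

universe w v u v' u' v₁ u₁

section

variable {C : Type u} [Category.{v} C] [MonoidalCategory C] [Preadditive C]

/-- Voevodsky's smash-nilpotence conjecture for the class `W`: every numerically trivial morphism
`s : 𝟙 ⟶ M`, with `M` in `W`, is smash-nilpotent, that is, some tensor power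
`s ⊗ ⋯ ⊗ s : 𝟙 ⟶ M ⊗ ⋯ ⊗ M` is zero. -/
def VoevodskyOn (W : ObjectProperty C) : Prop :=
  ∀ M : C, W M → ∀ s : 𝟙_ C ⟶ M, (∀ r : M ⟶ 𝟙_ C, s ≫ r = 0) → ∃ n : ℕ, powMor s n = 0

end

section

variable {C : Type u} [Category.{v} C] [Preadditive C] [HasZeroObject C] [HasShift C ℤ]
  [∀ n : ℤ, (shiftFunctor C n).Additive] [Pretriangulated C] [MonoidalCategory C]
  [SymmetricCategory C] [TensorTriangulated C]
  {C' : Type u'} [Category.{v'} C'] [Preadditive C'] [HasZeroObject C'] [HasShift C' ℤ]
  [∀ n : ℤ, (shiftFunctor C' n).Additive] [Pretriangulated C'] [MonoidalCategory C']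
  [SymmetricCategory C'] [TensorTriangulated C']
  {D : Type u₁} [Category.{v₁} D] [Preadditive D] [MonoidalCategory D]

/-- In the situation of `IsFamily`: the class `P` of Chow motives over `U` contains the unit and is
stable under tensor products, and if the realisation of a morphism `s : 𝟙 ⟶ X`, with `X` in `P`,
is zero at the generic point, then the class of some tensor power of `s` in the cohomology of `U` with
values in `X ⊗ ⋯ ⊗ X` is zero. This is so because the filtration of Leray is multiplicative: the class
of `s` is in the first step of the filtration, hence the class of its `n`-th tensor power is in the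
`n`-th step, which is zero if `n` is greater than twice the dimension of `U`. -/
structure IsLeray {E : Type w} [Field E] (R : Realisation C E) (R' : Realisation C' E)
    (P : ObjectProperty D) (ρ : D ⥤ C') (φ : C ⥤ D) [φ.Monoidal] (π : D ⥤ C)
    (adj : φ ⊣ π) : Prop where
  unit : P (𝟙_ D)
  tensor (X Y : D) : P X → P Y → P (X ⊗ Y)
  leray (X : D) : P X → ∀ s : 𝟙_ D ⟶ X, R'.H.map (ρ.map s) = 0 →
    ∃ n : ℕ, R.H.map (adjMor adj (powMor s n)) = 0

end

end Pool.Agent.N209.BD
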