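import Pool.Agent.N209.BD.Main
import Pool.Agent.N209.BD.SmashDefs
import Pool.Agent.N209.PF.Main

/-!
# Smash-nilpotence over a field and over its extensions
-/

set_option autoImplicit false
set_option linter.unusedSectionVars false
set_option linter.unusedSimpArgs false
set_option backward.isDefEq.respectTransparency false
set_option backward.defeqAttrib.useBackward true

open CategoryTheory Limits MonoidalCategory Pretriangulated Triangulated ObjectProperty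

namespace Pool.Agent.N209.BD

open Pool.Agent.Y116.MT Pool.Agent.N209.MT Pool.Agent.N209.CD Pool.Agent.N209.PF
  Pool.Agent.V1178.MT

universe w v u v' u' v₁ u₁

section

variable {C : Type u} [Category.{v} C] [Preadditive C] [HasZeroObject C] [HasShift C ℤ]
  [∀ n : ℤ, (shiftFunctor C n).Additive] [Pretriangulated C]
  [MonoidalCategory C] [SymmetricCategory C] [TensorTriangulated C] [MonoidalPreadditive C]
  [RightRigidCategory C]
  {E : Type w} [Field E] {R : Realisation C E} {W : ObjectProperty C}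

lemma map_eq_zero_of_killed {X Y : C} {f : X ⟶ Y} (h : Killed R f) : R.H.map f = 0 := by
  have h3 := h 0
  have h4 := (shiftFunctorZero C ℤ).hom.naturality f
  rw [← cancel_epi (R.H.map ((shiftFunctorZero C ℤ).hom.app _)), comp_zero,
    ← Functor.map_comp]
  simp only [Functor.id_map] at h4
  rw [← h4, Functor.map_comp, h3, zero_comp]

lemma map_star_ne_zero {X Y : C} {s : 𝟙_ C ⟶ X} {t : 𝟙_ C ⟶ Y} (hs : R.H.map s ≠ 0)
    (ht : R.H.map t ≠ 0) : R.H.map (star s t) ≠ 0 := by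
  intro h
  have h1 : ¬ Killed R (s ⊗ₘ t) := not_killed_tensor (fun h => hs (map_eq_zero_of_killed h))
    (fun h => ht (map_eq_zero_of_killed h))
  apply h1
  have h2 : s ⊗ₘ t = (λ_ (𝟙_ C)).hom ≫ star s t := by
    simp [star]
  rw [h2]
  exact (killed_of_unit h).comp_left _

lemma map_powMor_ne_zero {X : C} {s : 𝟙_ C ⟶ X} (hs : R.H.map s ≠ 0) (n : ℕ) :
    R.H.map (powMor s n) ≠ 0 := by
  induction n with
  | zero =>
    intro h
    have h1 : R.H.map (𝟙 (𝟙_ C)) = 0 := h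
    rw [CategoryTheory.Functor.map_id] at h1
    have h2 : IsZero (𝟙_ (ModuleCat.{w} E)) :=
      ((IsZero.iff_id_eq_zero _).2 h1).of_iso (asIso (Functor.LaxMonoidal.ε R.H))
    have h3 := ModuleCat.subsingleton_of_isZero h2
    exact one_ne_zero (α := E) (Subsingleton.elim (α := E) 1 0)
  | succ n ih => exact map_star_ne_zero hs ih

/-- Voevodsky's conjecture implies standard conjecture D. -/
theorem homNum_of_voevodsky (R : Realisation C E) (h : VoevodskyOn W) : HomNum R W := by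
  intro M hM s hs
  by_contra hcon
  push Not at hcon
  obtain ⟨n, hn⟩ := h M hM s hcon
  exact map_powMor_ne_zero hs n (by rw [hn, Functor.map_zero])

variable [IsTriangulated C] [Linear ℚ C]

/-- A homologically trivial morphism from the unit to an object of weights `≥ 0` comes from a
homologically trivial morphism to a pure object, if D holds. -/
lemma lift_hom_trivial (hW : IsChowClass W) (w : Weights R W)
    (hQ : ∀ e : 𝟙_ C ⟶ 𝟙_ C, ∃ q : ℚ, e = q • 𝟙 _) (hD : HomNum R W) {X : C}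
    (hX : WeightNonneg W X) (a : 𝟙_ C ⟶ X) (ha : R.H.map a = 0) :
    ∃ (M : C) (f : M ⟶ X) (a' : 𝟙_ C ⟶ M), W M ∧ R.H.map a' = 0 ∧ a = a' ≫ f := by
  obtain ⟨M, Z, f, g, h, hM, hZ, hT, hlift⟩ := exists_cover hW.neg hX
  obtain ⟨a₀, ha₀⟩ := hlift (𝟙_ C) hW.unit a
  have hT' := inv_rot_of_distTriang _ hT
  obtain ⟨F, hFdef⟩ : ∃ F : C, F = Z⟦(-1 : ℤ)⟧ := ⟨_, rfl⟩
  obtain ⟨k, g', hT₁, hF⟩ : ∃ (k : Z⟦(-1 : ℤ)⟧ ⟶ M) (g' : X ⟶ (Z⟦(-1 : ℤ)⟧)⟦(1 : ℤ)⟧),
      Triangle.mk k f g' ∈ distTriang C ∧ WeightNonneg W (Z⟦(-1 : ℤ)⟧) := by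
    refine ⟨_, _, hT', ?_⟩
    refine ec_shiftBy (-1) ?_ hZ
    rintro Y ⟨n, hn, hY⟩
    refine ⟨n + 1, ?_, hW.neg.shift_mem hY (-1) (n + 1) (by omega)⟩
    have : n ≤ -1 := hn
    change n + 1 ≤ 0
    omega
  obtain ⟨N, Z₂, f₂, g₂, h₂, hN, hZ₂, hT₂, -⟩ := exists_cover hW.neg hF
  have hkf : k ≫ f = 0 := comp12 hT₁
  -- the kernel of `R(f)` is the image of `R(N)`
  have hker : ∀ y : R.H.obj M, (R.H.map f).hom y = 0 →
      ∃ x, (R.H.map (f₂ ≫ k)).hom x = y := by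
    intro y hy
    obtain ⟨x, hx⟩ := exact0 hT₁ y hy
    obtain ⟨Q, hQ₁, hQ₂⟩ := high_ec w hW.neg.iso hZ₂ 0
    obtain ⟨P, hP, hP'⟩ := pure_zero w hM
    obtain ⟨α, β, hαβ⟩ := hQ₂ 0 P (by norm_num) hP
    have hQ0 : w.ev Z₂ Q = 0 := ev_zero_of w rfl hQ₁
    obtain ⟨x', hx'⟩ := exact0 hT₂ (w.ev _ Q (w.ev _ α x)) (by rw [← w.ev_natural, hQ0]; rfl)
    refine ⟨x', ?_⟩
    have h1 : (R.H.map (f₂ ≫ k)).hom x' = (R.H.map k).hom ((R.H.map f₂).hom x') := by
      rw [Functor.map_comp]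
      rfl
    rw [h1, hx', ← w.ev_natural, ← w.ev_natural, hx]
    have h2 : w.ev M (α * Q + β * P) y = w.ev M Q (w.ev M α y) := by
      have h4 : w.ev M (α * Q + β * P) = w.ev M (α * Q) + w.ev M (β * P) := by
        simp [Weights.ev]
      rw [h4, LinearMap.add_apply, mul_comm α Q, w.ev_mul, w.ev_mul, hP']
      simp
    rw [← h2, hαβ]
    simp [Weights.ev]
  obtain ⟨p, hp⟩ := regular_hom hQ (M := N) (N := M) (R := R) (fun s hs => hD _ (hW.tensor _ _
    (hW.sum _ _ hN hM) (hW.dual _ (hW.sum _ _ hN hM))) s hs) (f₂ ≫ k)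
  have hp' : R.H.map ((f₂ ≫ k) ≫ p ≫ (f₂ ≫ k)) = R.H.map (f₂ ≫ k) := by
    have h1 := map_eq_zero_of_killed hp
    rwa [Functor.map_sub, sub_eq_zero] at h1
  refine ⟨M, f, a₀ - a₀ ≫ p ≫ (f₂ ≫ k), hM, ?_, ?_⟩
  · rw [Functor.map_sub, sub_eq_zero]
    ext e
    obtain ⟨x, hx⟩ := hker ((R.H.map a₀).hom e) (by
      have h1 : (R.H.map f).hom ((R.H.map a₀).hom e) = (R.H.map (a₀ ≫ f)).hom e := by
        rw [Functor.map_comp]
        rfl
      rw [h1, ← ha₀, ha]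
      rfl)
    have h1 : (R.H.map (a₀ ≫ p ≫ (f₂ ≫ k))).hom e =
        (R.H.map (p ≫ (f₂ ≫ k))).hom ((R.H.map a₀).hom e) := by
      rw [Functor.map_comp]
      rfl
    have h2 : (R.H.map (p ≫ (f₂ ≫ k))).hom ((R.H.map (f₂ ≫ k)).hom x) =
        (R.H.map ((f₂ ≫ k) ≫ p ≫ (f₂ ≫ k))).hom x := by
      rw [Functor.map_comp R.H (f₂ ≫ k)]
      rfl
    rw [h1, ← hx, h2, hp']
  · rw [Preadditive.sub_comp, ← ha₀]
    simp only [Category.assoc]
    rw [hkf, comp_zero, comp_zero, comp_zero, sub_zero]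

end

section

variable {C : Type u} [Category.{v} C] [Preadditive C] [HasZeroObject C] [HasShift C ℤ]
  [∀ n : ℤ, (shiftFunctor C n).Additive] [Pretriangulated C] [IsTriangulated C]
  [MonoidalCategory C] [SymmetricCategory C] [TensorTriangulated C] [MonoidalPreadditive C]
  [RightRigidCategory C] [Linear ℚ C]
  {C' : Type u'} [Category.{v'} C'] [Preadditive C'] [HasZeroObject C'] [HasShift C' ℤ]
  [∀ n : ℤ, (shiftFunctor C' n).Additive] [Pretriangulated C'] [MonoidalCategory C']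
  [SymmetricCategory C'] [TensorTriangulated C'] [MonoidalPreadditive C'] [RightRigidCategory C']
  {E : Type w} [Field E] {R : Realisation C E} {R' : Realisation C' E}
  {W : ObjectProperty C} {W' : ObjectProperty C'}

lemma map_zero_of_adj {D : Type u₁} [Category.{v₁} D] [Preadditive D] {φ : C ⥤ D} {π : D ⥤ C}
    [π.Additive] (adj : φ ⊣ π) (X Y : C) : φ.map (0 : X ⟶ Y) = 0 := by
  apply (adj.homEquiv _ _).injective
  rw [Adjunction.homEquiv_unit, Adjunction.homEquiv_unit, π.map_zero, comp_zero]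
  have h := adj.unit.naturality (0 : X ⟶ Y)
  simp only [Functor.id_map, Functor.comp_map] at h
  rw [← h, zero_comp]

lemma powMor_adj_zero {D : Type u₁} [Category.{v₁} D] [Preadditive D] [MonoidalCategory D]
    [MonoidalPreadditive D] {φ : C ⥤ D} [φ.Monoidal] {π : D ⥤ C} [π.Additive] (adj : φ ⊣ π)
    {X : D} (t : 𝟙_ D ⟶ X) {M : C} (f : M ⟶ π.obj X) (a : 𝟙_ C ⟶ M)
    (ht : adjMor adj t = a ≫ f) {m : ℕ} (hm : powMor a m = 0) : powMor t m = 0 := by
  have h1 : t = (Functor.LaxMonoidal.ε φ ≫ φ.map a) ≫ (adj.homEquiv _ _).symm f := by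
    have h2 : inv (Functor.LaxMonoidal.ε φ) ≫ t = φ.map a ≫ (adj.homEquiv _ _).symm f := by
      rw [← adj.homEquiv_naturality_left_symm, ← ht, adjMor, Equiv.symm_apply_apply]
    rw [Category.assoc, ← h2, IsIso.hom_inv_id_assoc]
  obtain ⟨e, he⟩ := exists_functor φ M m
  rw [h1, powMor_comp]
  have h3 : powMor (Functor.LaxMonoidal.ε φ ≫ φ.map a) m = 0 := by
    rw [← cancel_mono e.hom, he, hm, map_zero_of_adj adj, comp_zero, zero_comp]
  rw [h3, zero_comp]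

/-- Voevodsky's conjecture over `k` implies Voevodsky's conjecture over `K`. -/
theorem voevodsky_ascend (hW : IsChowClass W) (w : Weights R W)
    (hQ : ∀ e : 𝟙_ C ⟶ 𝟙_ C, ∃ q : ℚ, e = q • 𝟙 _) (hV : VoevodskyOn W)
    (hd' : ∀ M, W' M → W' (Mᘁ))
    {I : Type*} {D : I → Type u₁} [∀ i, Category.{v₁} (D i)] [∀ i, Preadditive (D i)]
    [∀ i, Linear ℚ (D i)] [∀ i, MonoidalCategory (D i)] [∀ i, MonoidalPreadditive (D i)]
    [∀ i, BraidedCategory (D i)]
    {P : ∀ i, ObjectProperty (D i)}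
    {ρ : ∀ i, D i ⥤ C'} [∀ i, (ρ i).Additive] [∀ i, (ρ i).Monoidal]
    {φ : ∀ i, C ⥤ D i} [∀ i, (φ i).Monoidal] {π : ∀ i, D i ⥤ C} [∀ i, (π i).Additive]
    {adj : ∀ i, φ i ⊣ π i} {τ : ∀ i, φ i ⋙ π i ⟶ 𝟭 C}
    (hF : ∀ i, IsFamily R R' W (P i) (ρ i) (φ i) (π i) (adj i) (τ i))
    (hL : ∀ i, IsLeray R R' (P i) (ρ i) (φ i) (π i) (adj i))
    (hcov : ∀ Y : C', W' Y → ∀ u : Y ⟶ 𝟙_ C', ∃ (i : I) (X : D i) (u₀ : X ⟶ 𝟙_ (D i))
      (j : (ρ i).obj X ≅ Y), P i X ∧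
        j.hom ≫ u = (ρ i).map u₀ ≫ Functor.OplaxMonoidal.η (ρ i))
    (hcov₂ : ∀ Y : C', W' Y → ∀ s : 𝟙_ C' ⟶ Y, ∃ (i : I) (X : D i) (s₀ : 𝟙_ (D i) ⟶ X)
      (j : (ρ i).obj X ≅ Y), P i X ∧
        s = Functor.LaxMonoidal.ε (ρ i) ≫ (ρ i).map s₀ ≫ j.hom) : VoevodskyOn W' := by
  have hD : HomNum R W := homNum_of_voevodsky R hV
  have hD' : HomNum R' W' := homNum_of_homNumD hd'
    (ascend hW.neg w hW.unit (homNumD_of_homNum hW.dual hD) hF hcov)
  intro Y hY s hs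
  have hs0 : R'.H.map s = 0 := by
    by_contra h
    obtain ⟨r, hr⟩ := hD' Y hY s h
    exact hr (hs r)
  obtain ⟨i, X, s₀, j, hX, rfl⟩ := hcov₂ Y hY s
  have h1 : R'.H.map ((ρ i).map s₀) = 0 := by
    have h2 : (ρ i).map s₀ = inv (Functor.LaxMonoidal.ε (ρ i)) ≫
        (Functor.LaxMonoidal.ε (ρ i) ≫ (ρ i).map s₀ ≫ j.hom) ≫ j.inv := by simp
    rw [h2, Functor.map_comp, Functor.map_comp, hs0, zero_comp, comp_zero]
  obtain ⟨n, hn⟩ := (hL i).leray X hX s₀ h1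
  have hXn : ∀ k : ℕ, P i (pow X k) := by
    intro k
    induction k with
    | zero => exact (hL i).unit
    | succ k ih => exact (hL i).tensor _ _ hX ih
  obtain ⟨M, f, a', hM, ha', haf⟩ := lift_hom_trivial hW w hQ hD ((hF i).weights _ (hXn n)) _ hn
  obtain ⟨m, hm⟩ := hV M hM a' (by
    intro r
    obtain ⟨q, hq⟩ := hQ (a' ≫ r)
    by_cases hq0 : q = 0
    · rw [hq, hq0, zero_smul]
    · exfalso
      have hiso := isIso_of_scalar hq hq0
      apply unit_ne_zero R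
      have h2 : R.H.map (a' ≫ r) = 0 := by
        rw [Functor.map_comp, ha', zero_comp]
      exact absurd h2 (by
        intro h2
        have h3 : (𝟙 (R.H.obj (𝟙_ C)) : R.H.obj (𝟙_ C) ⟶ _) = 0 := by
          rw [← cancel_mono (R.H.map (a' ≫ r)), zero_comp, h2, comp_zero]
        have h4 : IsZero (𝟙_ (ModuleCat.{w} E)) :=
          ((IsZero.iff_id_eq_zero _).2 h3).of_iso (asIso (Functor.LaxMonoidal.ε R.H))
        have h5 := ModuleCat.subsingleton_of_isZero h4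
        exact one_ne_zero (α := E) (Subsingleton.elim (α := E) 1 0)))
  have h3 : powMor (powMor s₀ n) m = 0 := powMor_adj_zero (adj i) _ f a' haf hm
  obtain ⟨e, he⟩ := exists_mul X n m
  have h4 : powMor s₀ (n * m) = 0 := by
    rw [← he, h3, zero_comp]
  refine ⟨n * m, ?_⟩
  obtain ⟨e', he'⟩ := exists_functor (ρ i) X (n * m)
  have h5 : powMor (Functor.LaxMonoidal.ε (ρ i) ≫ (ρ i).map s₀) (n * m) = 0 := by
    rw [← cancel_mono e'.hom, he', h4, Functor.map_zero, comp_zero, zero_comp]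
  rw [← Category.assoc, powMor_comp, h5, zero_comp]

/-- Voevodsky's conjecture over `K` implies Voevodsky's conjecture over `k`. -/
theorem voevodsky_descend (hV : VoevodskyOn W') (b : C ⥤ C') [b.Monoidal] [b.Additive]
    [b.Faithful] (hbW : ∀ M, W M → W' (b.obj M))
    {I : Type*} {D : I → Type u₁} [∀ i, Category.{v₁} (D i)] [∀ i, Preadditive (D i)]
    [∀ i, Linear ℚ (D i)] [∀ i, MonoidalCategory (D i)]
    {P : ∀ i, ObjectProperty (D i)}
    {ρ : ∀ i, D i ⥤ C'} [∀ i, (ρ i).Additive] [∀ i, (ρ i).Monoidal]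
    {φ : ∀ i, C ⥤ D i} [∀ i, (φ i).Monoidal] {π : ∀ i, D i ⥤ C} [∀ i, (π i).Additive]
    {adj : ∀ i, φ i ⊣ π i} {τ : ∀ i, φ i ⋙ π i ⟶ 𝟭 C}
    (hF : ∀ i, IsFamily R R' W (P i) (ρ i) (φ i) (π i) (adj i) (τ i))
    (κ : ∀ i, φ i ⋙ ρ i ≅ b)
    (hcov : ∀ M : C, W M → ∀ r' : b.obj M ⟶ 𝟙_ C', ∃ (i : I) (r₀ : (φ i).obj M ⟶ 𝟙_ (D i)),
      (κ i).hom.app M ≫ r' = (ρ i).map r₀ ≫ Functor.OplaxMonoidal.η (ρ i)) :
    VoevodskyOn W := by
  intro M hM s hs
  have h1 : ∀ r' : b.obj M ⟶ 𝟙_ C', (Functor.LaxMonoidal.ε b ≫ b.map s) ≫ r' = 0 := by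
    intro r'
    obtain ⟨i, r₀, hr₀⟩ := hcov M hM r'
    obtain ⟨q, hq⟩ := (hF i).scalar (Functor.LaxMonoidal.ε (φ i) ≫ (φ i).map s ≫ r₀)
    let r : M ⟶ 𝟙_ C := (adj i).unit.app M ≫ (π i).map (r₀ ≫ Functor.LaxMonoidal.ε (φ i)) ≫
      (τ i).app (𝟙_ C)
    have h2 : (φ i).map s ≫ r₀ ≫ Functor.LaxMonoidal.ε (φ i) = q • 𝟙 _ := by
      rw [← cancel_epi (Functor.LaxMonoidal.ε (φ i)), ← Category.assoc, ← Category.assoc]
      have h3 : (Functor.LaxMonoidal.ε (φ i) ≫ (φ i).map s) ≫ r₀ = q • 𝟙 _ := by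
        rw [← hq, Category.assoc]
      rw [h3, Linear.smul_comp, Category.id_comp, Linear.comp_smul, Category.comp_id]
    have h3 : s ≫ r = q • ((adj i).unit.app (𝟙_ C) ≫ (τ i).app (𝟙_ C)) := by
      have h4 := (adj i).unit.naturality s
      simp only [Functor.id_map, Functor.comp_map] at h4
      have h6 : (adj i).unit.app (𝟙_ C) ≫ 𝟙 ((π i).obj ((φ i).obj (𝟙_ C))) =
        (adj i).unit.app (𝟙_ C) := Category.comp_id _
      simp only [r]
      rw [← Category.assoc, h4, Category.assoc, ← Functor.map_comp_assoc, h2, Functor.map_smul,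
        CategoryTheory.Functor.map_id, Linear.smul_comp, Linear.comp_smul, ← Category.assoc, h6]
    have hq0 : q = 0 := by
      by_contra hq0
      apply (hF i).trace_unit
      rw [hs r] at h3
      rw [← one_smul ℚ ((adj i).unit.app (𝟙_ C) ≫ (τ i).app (𝟙_ C)), ← inv_mul_cancel₀ hq0,
        mul_smul, ← h3, smul_zero]
    have h4 : (φ i).map s ≫ r₀ = 0 := by
      rw [← cancel_epi (Functor.LaxMonoidal.ε (φ i)), hq, hq0, zero_smul, comp_zero]
    have h5 : b.map s ≫ r' = 0 := by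
      have h6 := (κ i).hom.naturality s
      simp only [Functor.comp_map] at h6
      rw [← cancel_epi ((κ i).hom.app _), comp_zero, ← Category.assoc, ← h6, Category.assoc, hr₀,
        ← Functor.map_comp_assoc, h4, Functor.map_zero, zero_comp]
    rw [Category.assoc, h5, comp_zero]
  obtain ⟨n, hn⟩ := hV _ (hbW M hM) _ h1
  refine ⟨n, ?_⟩
  obtain ⟨e, he⟩ := exists_functor b M n
  have h2 := he s
  rw [hn, zero_comp] at h2
  apply b.map_injective
  rw [Functor.map_zero, ← cancel_epi (Functor.LaxMonoidal.ε b), comp_zero]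
  exact h2.symm

end

end Pool.Agent.N209.BD
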